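import Pool.Agent.V8H34.KR.Neg

/-!
# For every `k ≥ 2` there is a set of `k`-recurrence which fails for `k` commuting transformations

We answer Q2 in the negative for every `k ≥ 2`. Put the digits in groups of `k - 1` places, the places
being at the powers `6561 ^ (p ^ 2)`. The set `S_k` consists of the integers with finitely many nonzero
digits, the first digit of each group in `{0, 1, 3, 4}` and the others in `{0, 1}`, such that the number
of the groups with the digits `4, 1, ..., 1` is not divisible by `3`. Then `S_k` is a set of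
`k`-recurrence, but there are commuting invertible measure preserving `T_1, ..., T_k` and a set `A` of
positive measure such that `A ∩ T_1^n A ∩ ... ∩ T_k^n A` is a null set for every `n ∈ S_k`.

Method. (a) The average over the digits of the measures of `A ∩ T^n A ∩ ... ∩ T^(kn) A` is bounded
below by the density Hales-Jewett theorem. The average twisted by a nontrivial character of the number
of the groups `4, 1, ..., 1` modulo `3` is exponentially small: `k - 2` applications of the
Cauchy-Schwarz inequality, one for each of the places other than the first, remove `k - 2` of the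
functions and reduce this to the estimate of the starting file for the pattern `x, T^n x, T^(2n) x`.
(b) The functions of a group of digits which are sums of `j` differences `h(z + s e_i) - h(z)` along
different coordinates, with values modulo `9`, form a filtration, and multiplication by a homomorphism
raises the degree by at most one. The function `3 · 1[s_0 = 4]` has degree at most `2`, so that the
function `3 · 1[s = (4, 1, ..., 1)]` has degree at most `k`. This gives periodic sets in dimension `k`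
without the patterns `x, x + n e_1, ..., x + n e_k`, `n ∈ S_k`, and then the transformations.
-/

open MeasureTheory

universe u

namespace Pool.Agent.Results.MP_74ad1e_an.AllOrders

/-- The integer powers of an invertible bimeasurable map, as bijections. -/
def zpw {X : Type u} [MeasurableSpace X] (T : X ≃ᵐ X) (n : ℤ) : Equiv.Perm X :=
  (T.toEquiv : Equiv.Perm X) ^ n

/-- Sets of `k`-recurrence. -/
def IsSetOfRecurrence (k : ℕ) (R : Set ℤ) : Prop :=
  ∀ (X : Type u) [MeasurableSpace X] (μ : Measure X) [IsProbabilityMeasure μ] (T : X ≃ᵐ X),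
    MeasurePreserving T μ μ → ∀ A : Set X, MeasurableSet A → 0 < μ A →
      ∃ n ∈ R, n ≠ 0 ∧ 0 < μ (⋂ j ∈ Finset.range (k + 1), (zpw T ((j : ℤ) * n)) '' A)

/-- The explicit set `S_k`: `s i l` is the digit at the place `l` of the group `i`. -/
def digitSet (k : ℕ) : Set ℤ :=
  {n | ∃ (M : ℕ) (s : ℕ → ℕ → ℕ),
    (∀ i, s i 0 = 0 ∨ s i 0 = 1 ∨ s i 0 = 3 ∨ s i 0 = 4) ∧
    (∀ i l, 0 < l → s i l = 0 ∨ s i l = 1) ∧
    ¬ 3 ∣ Nat.card {i : ℕ // i < M ∧ s i 0 = 4 ∧ ∀ l, 0 < l → l < k - 1 → s i l = 1} ∧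
    n = ((∑ i ∈ Finset.range M, ∑ l ∈ Finset.range (k - 1),
      s i l * 6561 ^ (((k - 1) * i + l) ^ 2) : ℕ) : ℤ)}

open Pool.Agent.V8H34.KR
open Pool.Agent.Helper406.Rec (avg ind ind_true ind_false Lam)

lemma mem_digitSet (r : ℕ) (n : ℤ) : n ∈ digitSet (r + 2) ↔ ∃ N : ℕ, InD r N ∧ n = N := by
  constructor
  · rintro ⟨M, s, h1, h2, h3, h4⟩
    exact ⟨_, ⟨M, s, ⟨h1, h2⟩, h3, rfl⟩, h4⟩
  · rintro ⟨N, ⟨M, s, ⟨h1, h2⟩, h3, h4⟩, h5⟩
    exact ⟨M, s, h1, h2, h3, by rw [h5, h4]; rfl⟩

lemma inD_pos {r N : ℕ} (h : InD r N) : 0 < N := by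
  obtain ⟨M, s, _, h2, h3⟩ := h
  rcases Nat.eq_zero_or_pos N with h0 | h0
  · exfalso
    rw [h0] at h3
    have h4 : IsEmpty {i : ℕ // i < M ∧ Full r s i} := by
      refine ⟨?_⟩
      rintro ⟨i, hi, hf⟩
      have h5 := (Finset.sum_eq_zero_iff.1 h3.symm) i (Finset.mem_range.2 hi)
      have h6 := (Finset.sum_eq_zero_iff.1 h5) 0 (Finset.mem_range.2 (Nat.succ_pos r))
      have h7 := Pool.Agent.Helper406.Rec.Lam_pos ((r + 1) * i + 0)
      rw [hf.1] at h6
      omega
    apply h2
    rw [Nat.card_of_isEmpty]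
    exact dvd_zero 3
  · exact h0

lemma zpw_image {X : Type u} [MeasurableSpace X] (T : X ≃ᵐ X) (m : ℕ) (A : Set X) :
    (zpw T (m : ℤ)) '' A = (T.symm)^[m] ⁻¹' A := by
  unfold zpw
  rw [zpow_natCast, Equiv.image_eq_preimage_symm]
  have h : ∀ x, ((T.toEquiv : Equiv.Perm X) ^ m).symm x = (T.symm)^[m] x := by
    intro x
    have h1 : ((T.toEquiv : Equiv.Perm X) ^ m).symm = ((T.toEquiv : Equiv.Perm X)⁻¹) ^ m := by
      rw [inv_pow]; rfl
    rw [h1, ← Equiv.Perm.iterate_eq_pow]
    rfl
  ext x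
  simp only [Set.mem_preimage, h]

theorem recurrence (r : ℕ) : IsSetOfRecurrence.{u} (r + 2) (digitSet (r + 2)) := by
  intro X _ μ _ T hT A hA hpos
  have hU : MeasurePreserving T.symm μ μ := hT.symm T
  obtain ⟨N, hN, hpos'⟩ := positivity_q μ hU hA hpos r
  refine ⟨(N : ℤ), (mem_digitSet r _).2 ⟨N, hN, rfl⟩, ?_, ?_⟩
  · have := inD_pos hN
    exact_mod_cast this.ne'
  · have h1 : {x | ∀ a : Fin (r + 3), (T.symm)^[(a : ℕ) * N] x ∈ A} ⊆
        ⋂ j ∈ Finset.range (r + 2 + 1), (zpw T ((j : ℤ) * (N : ℤ))) '' A := by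
      intro x hx
      simp only [Set.mem_iInter, Finset.mem_range]
      intro j hj
      rw [show ((j : ℤ) * (N : ℤ)) = ((j * N : ℕ) : ℤ) by push_cast; ring, zpw_image]
      exact hx ⟨j, hj⟩
    refine lt_of_lt_of_le ?_ (measure_mono h1)
    unfold nuq Measure.real at hpos'
    exact (ENNReal.toReal_pos_iff.1 hpos').1

lemma emp_ge {k N : ℕ} [NeZero N] (A : (Fin k → ZMod N) → Prop) (c : ℝ)
    (hd : c ≤ avg (fun x => ind (A x))) :
    ENNReal.ofReal c ≤ emp (code A) (cyl 0) := by
  classical
  rw [emp_apply _ (cyl_clopen 0).1.measurableSet]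
  have h1 : (Finset.univ.filter fun x => code A x ∈ cyl 0)
      = Finset.univ.filter fun x => A x := by
    ext x
    simp only [Finset.mem_filter, Finset.mem_univ, true_and]
    have h2 := code_iff A x 0
    show code A x 0 = true ↔ A x
    simpa using h2
  rw [h1]
  have h2 : avg (fun x => ind (A x))
      = ((Finset.univ.filter fun x => A x).card : ℝ)
        / (Fintype.card (Fin k → ZMod N) : ℝ) := by
    unfold avg
    congr 1
    rw [Finset.card_filter]
    push_cast
    apply Finset.sum_congr rfl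
    intro x _
    by_cases hx : A x
    · rw [ind_true hx, if_pos hx]
    · rw [ind_false hx, if_neg hx]
  rw [h2] at hd
  have hc : (0:ℝ) < (Fintype.card (Fin k → ZMod N) : ℝ) := by
    exact_mod_cast Fintype.card_pos
  have h3 : (((Fintype.card (Fin k → ZMod N) : ℕ) : ENNReal))⁻¹ *
      ((Finset.univ.filter fun x => A x).card : ENNReal)
      = ENNReal.ofReal (((Finset.univ.filter fun x => A x).card : ℝ)
        / (Fintype.card (Fin k → ZMod N) : ℝ)) := by
    rw [ENNReal.ofReal_div_of_pos hc, ENNReal.ofReal_natCast, ENNReal.ofReal_natCast, mul_comm,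
      div_eq_mul_inv]
  rw [h3]
  exact ENNReal.ofReal_le_ofReal hd

theorem negative (r : ℕ) :
    ∃ (X : Type) (_ : MeasurableSpace X) (_ : StandardBorelSpace X) (μ : Measure X)
      (_ : IsProbabilityMeasure μ) (T : Fin (r + 2) → X ≃ᵐ X) (A : Set X),
      (∀ i, MeasurePreserving (T i) μ μ) ∧ (∀ i j x, T i (T j x) = T j (T i x)) ∧
      MeasurableSet A ∧ 0 < μ A ∧
      ∀ n ∈ digitSet (r + 2), n ≠ 0 → μ (A ∩ ⋂ i, (zpw (T i) n) '' A) = 0 := by
  obtain ⟨h, hid⟩ := local_id r
  obtain ⟨μ, hμ, h1, h3, h4⟩ := limit_system (k := r + 2) (InD r)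
    (ENNReal.ofReal ((3 / 4) ^ (r + 2) / 9 ^ (r + 2) / 2))
    (ENNReal.ofReal_pos.2 (by positivity)) (by
      intro K
      obtain ⟨c, hd⟩ := exists_dense_k h K
      exact ⟨Lam ((r + 1) * K), inferInstance, AK h K c, emp_ge _ _ hd,
        fun n hn hK x => no_pattern h hid K c n hn hK x⟩)
  refine ⟨Om (r + 2), inferInstance, inferInstance, μ, hμ, fun i => shf (Pi.single i 1), cyl 0,
    fun i => h1 _, fun i j x => shf_comm _ _ x, (cyl_clopen 0).1.measurableSet, h3, ?_⟩
  intro n hn _
  obtain ⟨N, hN, rfl⟩ := (mem_digitSet r n).1 hn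
  have e1 : ∀ i : Fin (r + 2), (zpw (shf (Pi.single i 1 : Vk (r + 2))) (N : ℤ)) '' cyl 0
      = cyl (N • (Pi.single i 1 : Vk (r + 2))) := by
    intro i
    unfold zpw
    rw [zpow_natCast]
    exact shf_image _ N
  simp only [e1]
  exact h4 N hN

/-- **Q2 has a negative answer for every `k ≥ 2`.** For every `k ≥ 2` the explicit set `digitSet k` is
a set of `k`-recurrence, but there are pairwise commuting invertible measure preserving maps
`T_1, ..., T_k` of a probability space and a measurable set `A` of positive measure such that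
`A ∩ T_1^n A ∩ ... ∩ T_k^n A` is a null set for every nonzero `n ∈ digitSet k`. -/
theorem result (k : ℕ) (hk : 2 ≤ k) :
    IsSetOfRecurrence.{u} k (digitSet k) ∧
    ∃ (X : Type) (_ : MeasurableSpace X) (_ : StandardBorelSpace X) (μ : Measure X)
      (_ : IsProbabilityMeasure μ) (T : Fin k → X ≃ᵐ X) (A : Set X),
      (∀ i, MeasurePreserving (T i) μ μ) ∧ (∀ i j x, T i (T j x) = T j (T i x)) ∧
      MeasurableSet A ∧ 0 < μ A ∧
      ∀ n ∈ digitSet k, n ≠ 0 → μ (A ∩ ⋂ i, (zpw (T i) n) '' A) = 0 := by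
  obtain ⟨r, rfl⟩ : ∃ r, k = r + 2 := ⟨k - 2, by omega⟩
  exact ⟨recurrence r, negative r⟩

end Pool.Agent.Results.MP_74ad1e_an.AllOrders
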